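import Pool.Agent.W910.LC.Stmts

/-! Cardinals between `ω₁` and `κ` are collapsed. -/

set_option autoImplicit false

open Cardinal Set

namespace Pool.Agent.W910.LC.T_L2

universe u

theorem seg (a c : Cardinal.{u}) (h : a < c) : ∃ (α : c.ord.ToType) (j : a.ord.ToType → c.ord.ToType),
    Function.Injective j ∧ ∀ x, j x < α := by
  have h1 : Ordinal.type (α := a.ord.ToType) (· < ·) < Ordinal.type (α := c.ord.ToType) (· < ·) := by
    rw [Ordinal.type_toType, Ordinal.type_toType]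
    exact Cardinal.ord_lt_ord.2 h
  obtain ⟨f⟩ := Ordinal.type_lt_iff.1 h1
  exact ⟨f.top, f, f.injective, f.lt_top⟩

theorem ext {κ : Cardinal.{u}} (q : Col κ) (α : κ.ord.ToType) (xi : Om.{u}) (γ : κ.ord.ToType)
    (hlt : γ < α) (hno : ∀ γ', (α, xi, γ') ∉ q.carrier) :
    ∃ r : Col κ, r ≤ q ∧ (α, xi, γ) ∈ r.carrier := by
  refine ⟨⟨insert (α, xi, γ) q.carrier, q.ctbl.insert _, ?_, ?_⟩, ?_, ?_⟩
  · intro t ht
    rcases ht with rfl | ht
    · exact hlt
    · exact q.lt t ht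
  · intro t ht t' ht' h1 h2
    rcases ht with rfl | ht
    · rcases ht' with rfl | ht'
      · rfl
      · exfalso
        obtain ⟨a, x, g⟩ := t'
        simp only at h1 h2
        subst h1
        subst h2
        exact hno g ht'
    · rcases ht' with rfl | ht'
      · exfalso
        obtain ⟨a, x, g⟩ := t
        simp only at h1 h2
        subst h1
        subst h2
        exact hno g ht
      · exact q.fn t ht t' ht' h1 h2
  · exact Set.subset_insert _ _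
  · exact Set.mem_insert _ _

/-- the name of the function -/
def FF {κ l : Cardinal.{u}} (α : κ.ord.ToType) (j : l.ord.ToType → κ.ord.ToType)
    (i : Om.{u} → l.ord.ToType) (y0 : l.ord.ToType) (s : Col κ)
    (z : l.ord.ToType × l.ord.ToType) : Prop :=
  (∃ xi, z.1 = i xi ∧ (α, xi, j z.2) ∈ s.carrier) ∨ ((∀ xi, z.1 ≠ i xi) ∧ z.2 = y0) ∨
    ∃ xi γ, z.1 = i xi ∧ (α, xi, γ) ∈ s.carrier ∧ (∀ y', γ ≠ j y') ∧ z.2 = y0

section

variable {κ l : Cardinal.{u}} {α : κ.ord.ToType} {j : l.ord.ToType → κ.ord.ToType}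
  {i : Om.{u} → l.ord.ToType} {y0 : l.ord.ToType}

theorem FF_mono {r q : Col κ} (h : r ≤ q) {z : l.ord.ToType × l.ord.ToType}
    (hz : FF α j i y0 q z) : FF α j i y0 r z := by
  rcases hz with ⟨xi, h1, h2⟩ | h1 | ⟨xi, γ, h1, h2, h3⟩
  · exact Or.inl ⟨xi, h1, h h2⟩
  · exact Or.inr (Or.inl h1)
  · exact Or.inr (Or.inr ⟨xi, γ, h1, h h2, h3⟩)

theorem FF_In {r : Col κ} {z : l.ord.ToType × l.ord.ToType} (hz : FF α j i y0 r z) :
    In (FF α j i y0) r z :=
  fun q hq => ⟨q, le_refl q, q, le_refl q, FF_mono hq hz⟩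

theorem FF_fun (hj : Function.Injective j) (hi : Function.Injective i) {r : Col κ}
    {x y y' : l.ord.ToType} (h : FF α j i y0 r (x, y)) (h' : FF α j i y0 r (x, y')) : y = y' := by
  rcases h with ⟨xi, h1, h2⟩ | ⟨h1, h2⟩ | ⟨xi, γ, h1, h2, h3, h4⟩
  · rcases h' with ⟨xi', h1', h2'⟩ | ⟨h1', h2'⟩ | ⟨xi', γ', h1', h2', h3', h4'⟩
    · have e : xi = xi' := hi (h1.symm.trans h1')
      subst e
      exact hj (r.fn _ h2 _ h2' rfl rfl)
    · exact absurd h1 (h1' xi)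
    · have e : xi = xi' := hi (h1.symm.trans h1')
      subst e
      exact absurd (r.fn _ h2' _ h2 rfl rfl) (h3' y)
  · rcases h' with ⟨xi', h1', h2'⟩ | ⟨h1', h2'⟩ | ⟨xi', γ', h1', h2', h3', h4'⟩
    · exact absurd h1' (h1 xi')
    · exact h2.trans h2'.symm
    · exact h2.trans h4'.symm
  · rcases h' with ⟨xi', h1', h2'⟩ | ⟨h1', h2'⟩ | ⟨xi', γ', h1', h2', h3', h4'⟩
    · have e : xi = xi' := hi (h1.symm.trans h1')
      subst e
      exact absurd (r.fn _ h2 _ h2' rfl rfl) (h3 y')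
    · exact h4.trans h2'.symm
    · exact h4.trans h4'.symm

theorem FF_isFn (hj : Function.Injective j) (hi : Function.Injective i) (hjα : ∀ y, j y < α)
    (p : Col κ) : IsFn (FF α j i y0) p := by
  constructor
  · intro x q _
    by_cases hx : ∃ xi, x = i xi
    · obtain ⟨xi, rfl⟩ := hx
      by_cases hg : ∃ γ, (α, xi, γ) ∈ q.carrier
      · obtain ⟨γ, hγ⟩ := hg
        by_cases hy : ∃ y, γ = j y
        · obtain ⟨y, rfl⟩ := hy
          exact ⟨q, le_refl q, y, FF_In (Or.inl ⟨xi, rfl, hγ⟩)⟩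
        · push Not at hy
          exact ⟨q, le_refl q, y0, FF_In (Or.inr (Or.inr ⟨xi, γ, rfl, hγ, hy, rfl⟩))⟩
      · push Not at hg
        obtain ⟨r, hr, hr2⟩ := ext q α xi (j y0) (hjα y0) hg
        exact ⟨r, hr, y0, FF_In (Or.inl ⟨xi, rfl, hr2⟩)⟩
    · push Not at hx
      exact ⟨q, le_refl q, y0, FF_In (Or.inr (Or.inl ⟨hx, rfl⟩))⟩
  · intro x q _ y y' h h'
    obtain ⟨r, hr, s, hrs, hs⟩ := h q (le_refl q)
    obtain ⟨r', hr', s', hrs', hs'⟩ := h' r hr
    exact FF_fun hj hi (FF_mono (le_trans hr' hrs) hs) (FF_mono hrs' hs')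

end

theorem main : S_small.{u} := by
  intro κ _ l h1 h2 p hreg
  obtain ⟨α, j, hj, hjα⟩ := seg l κ h2
  obtain ⟨b, i, hi, hib⟩ := seg (ℵ₁ : Cardinal.{u}) l h1
  obtain ⟨r, _, c, hc⟩ := hreg (FF α j i b) p (le_refl p) (FF_isFn hj hi hjα p) b
  have hcount : ((fun t : κ.ord.ToType × Om.{u} × κ.ord.ToType => t.2.1) '' r.carrier).Countable :=
    r.ctbl.image _
  have hne : ((fun t : κ.ord.ToType × Om.{u} × κ.ord.ToType => t.2.1) '' r.carrier) ≠
      Set.univ := by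
    intro hu
    rw [hu] at hcount
    have h3 := hcount.le_aleph0
    rw [Cardinal.mk_univ] at h3
    have h4 : #(Om.{u}) = ℵ₁ := Cardinal.mk_ord_toType _
    rw [h4] at h3
    exact absurd h3 (not_le.2 Cardinal.aleph0_lt_aleph_one)
  obtain ⟨xi, hxi⟩ := (Set.ne_univ_iff_exists_notMem _).1 hne
  obtain ⟨s, hs, hs2⟩ := ext r α xi (j c) (hjα c) (fun γ' hγ' => hxi ⟨_, hγ', rfl⟩)
  have h5 := hc (i xi) (hib xi) s hs c (FF_In (Or.inl ⟨xi, rfl, hs2⟩))
  exact absurd h5 (lt_irrefl c)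

end Pool.Agent.W910.LC.T_L2
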