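import Pool.Agent.W910.LC.Stmts

/-! The ultrafilter on the small subsets of `Col κ ⊕ L`. -/

set_option autoImplicit false

open Cardinal Set

namespace Pool.Agent.W910.LC.T_L3

universe u

theorem bdd {κ : Cardinal.{u}} (hκ : κ.IsRegular) (s : Set κ.ord.ToType) (hs : #s < κ) :
    ∃ b, ∀ a ∈ s, a < b := by
  have h : ¬ IsCofinal s := by
    intro hc
    have := Order.cof_le hc
    rw [Ordinal.cof_toType, hκ.cof_ord] at this
    exact absurd hs (not_lt.2 this)
  rw [not_isCofinal_iff] at h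
  obtain ⟨b, hb⟩ := h
  exact ⟨b, fun a ha => hb a ha⟩

theorem small {κ : Cardinal.{u}} (hκ : κ.IsInaccessible) (α : κ.ord.ToType) :
    #{p : Col κ // Bel α p} < κ := by
  have hO : #(Om.{u}) < κ := by
    rw [Cardinal.mk_toType, Cardinal.card_ord]
    have h1 : (ℵ₁ : Cardinal.{u}) ≤ 2 ^ (ℵ₀ : Cardinal.{u}) := Cardinal.aleph_one_le_continuum
    exact h1.trans_lt (hκ.isStrongLimit.isStrongPrelimit hκ.1)
  have hI : #(Iio α) < κ := by simpa using Cardinal.mk_Iio_lt α
  have hT : #(Iio α × Om.{u} × Iio α) < κ := by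
    rw [Cardinal.mk_prod, Cardinal.mk_prod]
    simp only [Cardinal.lift_id]
    exact Cardinal.mul_lt_of_lt hκ.isRegular.aleph0_le hI
      (Cardinal.mul_lt_of_lt hκ.isRegular.aleph0_le hO hI)
  have hS : #(Set (Iio α × Om.{u} × Iio α)) < κ := by
    rw [Cardinal.mk_set]
    exact hκ.isStrongLimit.isStrongPrelimit hT
  refine lt_of_le_of_lt ?_ hS
  refine Cardinal.mk_le_of_injective (f := fun p : {p : Col κ // Bel α p} =>
    {t : Iio α × Om.{u} × Iio α | (t.1.1, t.2.1, t.2.2.1) ∈ p.1.carrier}) ?_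
  intro p q h
  have key : ∀ p q : {p : Col κ // Bel α p},
      {t : Iio α × Om.{u} × Iio α | (t.1.1, t.2.1, t.2.2.1) ∈ p.1.carrier} =
      {t : Iio α × Om.{u} × Iio α | (t.1.1, t.2.1, t.2.2.1) ∈ q.1.carrier} →
      p.1.carrier ⊆ q.1.carrier := by
    intro p q h t ht
    have h1 : t.1 < α := p.2 t ht
    have h2 : t.2.2 < α := (p.1.lt t ht).trans h1
    have h3 : ((⟨t.1, h1⟩, t.2.1, ⟨t.2.2, h2⟩) : Iio α × Om.{u} × Iio α) ∈
        {t : Iio α × Om.{u} × Iio α | (t.1.1, t.2.1, t.2.2.1) ∈ p.1.carrier} := ht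
    rw [h] at h3
    exact h3
  apply Subtype.ext
  have hc : p.1.carrier = q.1.carrier := Subset.antisymm (key p q h) (key q p h.symm)
  obtain ⟨p, hp⟩ := p
  obtain ⟨q, hq⟩ := q
  cases p
  cases q
  simp only at hc
  subst hc
  rfl

/-- the empty condition -/
def emp (κ : Cardinal.{u}) : Col κ where
  carrier := ∅
  ctbl := countable_empty
  lt := fun t h => absurd h (notMem_empty t)
  fn := fun t h => absurd h (notMem_empty t)

theorem main : S_uf.{u} := by
  intro κ hκ L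
  obtain ⟨hin, hsc⟩ := hκ
  obtain ⟨U, hU1, hU2, hU3, hU4⟩ := hsc (Col κ ⊕ L)
  have hreg : κ.IsRegular := hin.isRegular
  have hω : ℵ₀ < κ := hin.1
  have hcount : ∀ s : ℕ → Set (Col κ ⊕ L) → Prop,
      (∀ n, ∀ᶠ x : Set (Col κ ⊕ L) in (U : Filter (Set (Col κ ⊕ L))), s n x) →
      ∀ᶠ x : Set (Col κ ⊕ L) in (U : Filter (Set (Col κ ⊕ L))), ∀ n, s n x := by
    intro s hs
    have h := hU2 (ULift.{u} ℕ) (fun i => {x | s i.down x}) (by simpa using hω)
      (fun i => hs i.down)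
    filter_upwards [h] with x hx n
    exact mem_iInter.1 hx ⟨n⟩
  have hexist : ∀ s : Set (Col κ ⊕ L) → Prop,
      (∀ᶠ x : Set (Col κ ⊕ L) in (U : Filter (Set (Col κ ⊕ L))), s x) → ∃ x, s x :=
    fun s hs => hs.exists
  -- normality for functions to `Col κ`
  have hnp : ∀ c : Set (Col κ ⊕ L) → Col κ,
      (∀ᶠ x : Set (Col κ ⊕ L) in (U : Filter (Set (Col κ ⊕ L))), Sum.inl (c x) ∈ x) →
      ∃ a, ∀ᶠ x : Set (Col κ ⊕ L) in (U : Filter (Set (Col κ ⊕ L))), c x = a := by
    intro c hc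
    obtain ⟨a, ha⟩ := hU4 (fun x => Sum.inl (c x)) hc
    obtain ⟨x₀, hx₀⟩ := hexist _ ha
    refine ⟨c x₀, ?_⟩
    filter_upwards [ha] with x hx
    exact Sum.inl_injective (hx.trans hx₀.symm)
  -- normality for options
  have hno : ∀ o : Set (Col κ ⊕ L) → Option L,
      (∀ᶠ x : Set (Col κ ⊕ L) in (U : Filter (Set (Col κ ⊕ L))), ∀ a, o x = some a →
        Sum.inr a ∈ x) →
      ∃ v, ∀ᶠ x : Set (Col κ ⊕ L) in (U : Filter (Set (Col κ ⊕ L))), o x = v := by
    intro o ho
    let g : Set (Col κ ⊕ L) → Col κ ⊕ L := fun x => (o x).elim (Sum.inl (emp κ)) Sum.inr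
    have hg : Function.Injective (fun v : Option L => v.elim (Sum.inl (emp κ)) Sum.inr :
        Option L → Col κ ⊕ L) := by
      intro v w h
      cases v <;> cases w <;> simp_all
    obtain ⟨a, ha⟩ := hU4 g (by
      filter_upwards [ho, hU3 (Sum.inl (emp κ))] with x h1 h2
      cases hv : o x with
      | none => simpa [g, hv] using h2
      | some b => simpa [g, hv] using h1 b hv)
    obtain ⟨x₀, hx₀⟩ := hexist _ ha
    refine ⟨o x₀, ?_⟩
    filter_upwards [ha] with x hx
    exact hg (hx.trans hx₀.symm)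
  refine ⟨U, hU1, hcount, hU3, ?_, ?_⟩
  · intro c hc
    obtain ⟨p, hp⟩ := hnp (fun x => (c x).1) (hc.mono fun x h => h.1)
    obtain ⟨v, hv⟩ := hno (fun x => (c x).2.2) (hc.mono fun x h => h.2.2)
    have hl : ∀ i : ℕ, ∃ v, ∀ᶠ x : Set (Col κ ⊕ L) in (U : Filter (Set (Col κ ⊕ L))),
        (c x).2.1[i]? = v := by
      intro i
      refine hno (fun x => (c x).2.1[i]?) (hc.mono fun x h a ha => h.2.1 a ?_)
      exact List.mem_of_getElem? ha
    choose w hw using hl
    have hw' := hcount (fun i x => (c x).2.1[i]? = w i) hw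
    obtain ⟨x₀, hx₀⟩ := hexist _ hw'
    refine ⟨(p, (c x₀).2.1, v), ?_⟩
    filter_upwards [hp, hv, hw'] with x h1 h2 h3
    refine Prod.ext h1 (Prod.ext ?_ h2)
    exact List.ext_getElem? fun i => (h3 i).trans (hx₀ i).symm
  · -- the bounds
    have hb : ∀ p : Col κ, ∃ b, Bel b p := by
      intro p
      obtain ⟨b, hb⟩ := bdd hreg ((fun t => t.1) '' p.carrier)
        (lt_of_le_of_lt ((p.ctbl.image _).le_aleph0) hω)
      exact ⟨b, fun t ht => hb _ ⟨t, ht, rfl⟩⟩
    choose b hb using hb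
    -- conditions with large `b`
    have hlarge : ∀ β : κ.ord.ToType, ∃ p : Col κ, β < b p := by
      intro β
      obtain ⟨β', hβ'⟩ := bdd hreg {β} (by simpa using hreg.nat_lt 1)
      have h1 : β < β' := hβ' β rfl
      have hne : Nonempty Om.{u} := by
        rw [← Cardinal.mk_ne_zero_iff, Cardinal.mk_toType, Cardinal.card_ord]
        exact (Cardinal.aleph_pos 1).ne'
      obtain ⟨ξ⟩ := hne
      let p : Col κ :=
        { carrier := {(β', ξ, β)}
          ctbl := countable_singleton _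
          lt := by
            rintro t rfl
            exact h1
          fn := by
            rintro t rfl t' rfl _ _
            rfl }
      exact ⟨p, h1.trans (hb p (β', ξ, β) rfl)⟩
    -- (1)
    have H1 : ∀ᶠ x : Set (Col κ ⊕ L) in (U : Filter (Set (Col κ ⊕ L))), ∀ p : Col κ,
        Sum.inl p ∈ x → ∀ p' : Col κ, Bel (b p) p' → Sum.inl p' ∈ x := by
      by_contra hcon
      rw [Ultrafilter.eventually_not.symm] at hcon
      have hcon' : ∀ᶠ x : Set (Col κ ⊕ L) in (U : Filter (Set (Col κ ⊕ L))), ∃ p : Col κ,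
          Sum.inl p ∈ x ∧ ∃ p' : Col κ, Bel (b p) p' ∧ Sum.inl p' ∉ x := by
        filter_upwards [hcon] with x hx
        push Not at hx
        exact hx
      classical
      let c : Set (Col κ ⊕ L) → Col κ := fun x =>
        if h : ∃ p : Col κ, Sum.inl p ∈ x ∧ ∃ p' : Col κ, Bel (b p) p' ∧ Sum.inl p' ∉ x then
          h.choose else emp κ
      have hc : ∀ᶠ x : Set (Col κ ⊕ L) in (U : Filter (Set (Col κ ⊕ L))),
          Sum.inl (c x) ∈ x ∧ ∃ p' : Col κ, Bel (b (c x)) p' ∧ Sum.inl p' ∉ x := by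
        filter_upwards [hcon'] with x hx
        have : c x = hx.choose := dif_pos hx
        rw [this]
        exact hx.choose_spec
      obtain ⟨p, hp⟩ := hnp c (hc.mono fun x h => h.1)
      have hall := hU2 {p' : Col κ // Bel (b p) p'} (fun i => {x | Sum.inl i.1 ∈ x})
        (small hin (b p)) (fun i => hU3 (Sum.inl i.1))
      obtain ⟨x, hx1, hx2, hx3⟩ := hexist _ (hc.and (hp.and hall))
      obtain ⟨p', hp', hn⟩ := hx1.2
      rw [hx2] at hp'
      exact hn (mem_iInter.1 hx3 ⟨p', hp'⟩)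
    -- (3)
    have H3 : ∀ᶠ x : Set (Col κ ⊕ L) in (U : Filter (Set (Col κ ⊕ L))), ∀ s : ℕ → Col κ,
        (∀ n, Sum.inl (s n) ∈ x) → ∃ p', Sum.inl p' ∈ x ∧ ∀ n, b (s n) ≤ b p' := by
      by_contra hcon
      rw [Ultrafilter.eventually_not.symm] at hcon
      have hcon' : ∀ᶠ x : Set (Col κ ⊕ L) in (U : Filter (Set (Col κ ⊕ L))), ∃ s : ℕ → Col κ,
          (∀ n, Sum.inl (s n) ∈ x) ∧ ∀ p', Sum.inl p' ∈ x → ∃ n, b p' < b (s n) := by
        filter_upwards [hcon] with x hx
        push Not at hx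
        exact hx
      classical
      let c : Set (Col κ ⊕ L) → ℕ → Col κ := fun x =>
        if h : ∃ s : ℕ → Col κ,
          (∀ n, Sum.inl (s n) ∈ x) ∧ ∀ p', Sum.inl p' ∈ x → ∃ n, b p' < b (s n) then
          h.choose else fun _ => emp κ
      have hc : ∀ᶠ x : Set (Col κ ⊕ L) in (U : Filter (Set (Col κ ⊕ L))),
          (∀ n, Sum.inl (c x n) ∈ x) ∧ ∀ p', Sum.inl p' ∈ x → ∃ n, b p' < b (c x n) := by
        filter_upwards [hcon'] with x hx
        have : c x = hx.choose := dif_pos hx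
        rw [this]
        exact hx.choose_spec
      have hn : ∀ n : ℕ, ∃ p, ∀ᶠ x : Set (Col κ ⊕ L) in (U : Filter (Set (Col κ ⊕ L))),
          c x n = p := fun n => hnp (fun x => c x n) (hc.mono fun x h => h.1 n)
      choose q hq using hn
      have hq' := hcount (fun n x => c x n = q n) hq
      obtain ⟨β, hβ⟩ := bdd hreg (range fun n => b (q n))
        (lt_of_le_of_lt ((countable_range _).le_aleph0) hω)
      obtain ⟨p'', hp''⟩ := hlarge β
      obtain ⟨x, hx1, hx2, hx3⟩ := hexist _ (hc.and (hq'.and (hU3 (Sum.inl p''))))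
      obtain ⟨n, hn⟩ := hx1.2 p'' hx3
      rw [hx2 n] at hn
      have h1 : b (q n) < β := hβ _ ⟨n, rfl⟩
      exact lt_irrefl _ (hn.trans (h1.trans hp''))
    filter_upwards [hU1, H1, H3, hU3 (Sum.inl (emp κ))] with x hx h1 h3 h4
    -- the least upper bound
    obtain ⟨β, hβ⟩ := bdd hreg (b '' (Sum.inl ⁻¹' x))
      ((Cardinal.mk_image_le).trans_lt
        ((Cardinal.mk_preimage_of_injective _ _ Sum.inl_injective).trans_lt hx))
    have hne : {β : κ.ord.ToType | ∀ p, Sum.inl p ∈ x → b p ≤ β}.Nonempty :=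
      ⟨β, fun p hp => (hβ _ ⟨p, hp, rfl⟩).le⟩
    let α := WellFounded.min (wellFounded_lt (α := κ.ord.ToType)) _ hne
    have hα1 : ∀ p, Sum.inl p ∈ x → b p ≤ α := WellFounded.min_mem wellFounded_lt _ hne
    have hα2 : ∀ γ < α, ∃ p, Sum.inl p ∈ x ∧ γ < b p := by
      intro γ hγ
      by_contra hcon
      push Not at hcon
      exact WellFounded.not_lt_min wellFounded_lt (s := {β : κ.ord.ToType | ∀ p, Sum.inl p ∈ x → b p ≤ β}) (x := γ) hcon hγ
    refine ⟨α, fun p => ⟨fun hp t ht => (hb p t ht).trans_le (hα1 p hp), fun hp => ?_⟩⟩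
    rcases p.carrier.eq_empty_or_nonempty with he | hne'
    · have : p = emp κ := by
        cases p
        simp only at he
        subst he
        rfl
      rw [this]
      exact h4
    · obtain ⟨f, hf⟩ := p.ctbl.exists_eq_range hne'
      have hs : ∀ n, ∃ q, Sum.inl q ∈ x ∧ (f n).1 < b q := by
        intro n
        apply hα2
        apply hp
        rw [hf]
        exact ⟨n, rfl⟩
      choose s hs1 hs2 using hs
      obtain ⟨p', hp'1, hp'2⟩ := h3 s hs1
      apply h1 p' hp'1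
      intro t ht
      rw [hf] at ht
      obtain ⟨n, rfl⟩ := ht
      exact (hs2 n).trans_le (hp'2 n)

end Pool.Agent.W910.LC.T_L3
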