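import Pool.Agent.W910.LC.Stmts

/-! Project LC, part L4: bounding, and a closed point in a forced stationary set. -/

set_option autoImplicit false

open Cardinal Set

namespace Pool.Agent.W910.LC.T_L4

universe u

/-- every small nonempty type is enumerated on a proper initial segment -/
theorem surj (l : Cardinal.{u}) (Z : Type u) (z₀ : Z) (hZ : #Z < l) :
    ∃ (b : l.ord.ToType) (g : l.ord.ToType → Z), ∀ z, ∃ x < b, g x = z := by
  classical
  have h : (#Z).ord < Ordinal.type (α := l.ord.ToType) (· < ·) := by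
    rw [Ordinal.type_toType]
    exact Cardinal.ord_lt_ord.2 hZ
  set b := Ordinal.enum (α := l.ord.ToType) (· < ·) ⟨(#Z).ord, h⟩ with hb
  have hc : #(Iio b) = #Z := by
    have h1 := congrArg Ordinal.card (Ordinal.typein_enum (α := l.ord.ToType) (· < ·) h)
    rw [Cardinal.card_ord] at h1
    exact h1
  obtain ⟨e⟩ := Cardinal.eq.1 hc
  refine ⟨b, fun x => if h : x ∈ Iio b then e ⟨x, h⟩ else z₀, fun z => ?_⟩
  refine ⟨(e.symm z : Iio b), (e.symm z).2, ?_⟩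
  have h2 : ((e.symm z : Iio b) : l.ord.ToType) ∈ Iio b := (e.symm z).2
  exact (dif_pos h2).trans (e.apply_symm_apply z)

section

variable {P : Type u} [Preorder P] {X : Type u}

theorem In_mono {N : P → X → Prop} {p q : P} {x : X} (h : In N p x) (hq : q ≤ p) : In N q x :=
  fun r hr => h r (hr.trans hq)

theorem In_of {N : P → X → Prop} (hN : ∀ q r x, r ≤ q → N q x → N r x) {p : P} {x : X}
    (h : N p x) : In N p x :=
  fun q hq => ⟨q, le_rfl, q, le_rfl, hN p q x hq h⟩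

theorem ex_of_In {N : P → X → Prop} (hN : ∀ q r x, r ≤ q → N q x → N r x) {p : P} {x : X}
    (h : In N p x) : ∃ r ≤ p, N r x := by
  obtain ⟨r, hr, s, hs, h⟩ := h p le_rfl
  exact ⟨r, hr, hN s r x hs h⟩

end

theorem bdd : S_bdd.{u} := by
  intro P _ l p hl hreg Y hY
  have hne : Nonempty l.ord.ToType := by
    rw [← Cardinal.mk_ne_zero_iff, Cardinal.mk_ord_toType]
    exact (aleph0_pos.trans_le hl).ne'
  obtain ⟨b0⟩ := hne
  rcases Y.eq_empty_or_nonempty with hY0 | ⟨y₀, hy₀⟩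
  · exact ⟨b0, fun y hy => by rw [hY0] at hy; exact absurd hy (Set.notMem_empty y)⟩
  obtain ⟨b, g, hg⟩ := surj l Y ⟨y₀, hy₀⟩ hY
  have hfn : IsFn (fun (_ : P) (z : l.ord.ToType × l.ord.ToType) =>
      z.2 = (g z.1 : l.ord.ToType)) p := by
    constructor
    · intro x q hq
      exact ⟨q, le_rfl, g x, fun q hq => ⟨q, le_rfl, q, le_rfl, rfl⟩⟩
    · intro x q hq y y' h h'
      obtain ⟨_, _, _, _, e⟩ := h q le_rfl
      obtain ⟨_, _, _, _, e'⟩ := h' q le_rfl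
      exact e.trans e'.symm
  obtain ⟨r, hr, c, hc⟩ := hreg _ p le_rfl hfn b
  refine ⟨c, fun y hy => ?_⟩
  obtain ⟨x, hx, hxy⟩ := hg ⟨y, hy⟩
  have h := hc x hx r le_rfl (g x) (fun q hq => ⟨q, le_rfl, q, le_rfl, rfl⟩)
  rwa [hxy] at h

theorem card_lists (l : Cardinal.{u}) (hl : ℵ₁ < l) (b : l.ord.ToType) :
    #{t : List l.ord.ToType // t ≠ [] ∧ ∀ c ∈ t, c ≤ b} < l := by
  have h0 : ℵ₀ < l := aleph0_lt_aleph_one.trans hl
  have h : ∀ t : {t : List l.ord.ToType // t ≠ [] ∧ ∀ c ∈ t, c ≤ b},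
      ∃ t' : List (Iic b), t'.map Subtype.val = t.1 := fun t =>
    ⟨t.1.pmap (fun c hc => ⟨c, hc⟩) t.2.2, by simp [List.map_pmap]⟩
  choose f hf using h
  have h1 : #{t : List l.ord.ToType // t ≠ [] ∧ ∀ c ∈ t, c ≤ b} ≤ #(List (Iic b)) := by
    refine Cardinal.mk_le_of_injective (f := f) fun t t' htt => Subtype.ext ?_
    rw [← hf t, ← hf t', htt]
  refine h1.trans_lt ((mk_list_le_max _).trans_lt (max_lt h0 ?_))
  have h2 : #(Iio b) < l := by
    have h3 := mk_Iio_lt b (by simp)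
    rwa [Cardinal.mk_ord_toType] at h3
  have h4 : #(Iic b) ≤ #(Iio b) + 1 := by
    have h5 : Iic b = insert b (Iio b) := Iio_insert.symm
    rw [h5]
    exact mk_insert_le
  exact h4.trans_lt (add_lt_of_lt h0.le h2 (one_lt_aleph0.trans h0))

theorem clo : S_clo.{u} := by
  classical
  intro P _ l p hl hreg S hS K hKm hKt hKu
  let E : P → l.ord.ToType → l.ord.ToType → Prop := fun s b y =>
    ∀ t : List l.ord.ToType, t ≠ [] → (∀ c ∈ t, c ≤ b) → ∀ s' ≤ s, ∀ a, K s' t (some a) → a < y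
  have hEm : ∀ s s' b y, s' ≤ s → E s b y → E s' b y :=
    fun s s' b y h hE t ht htb s'' hs'' a hK => hE t ht htb s'' (hs''.trans h) a hK
  have claim : ∀ q ≤ p, ∀ b, ∃ s ≤ q, ∃ y, E s b y := by
    intro q hq b
    obtain ⟨b', τ, hτ⟩ := surj l {t : List l.ord.ToType // t ≠ [] ∧ ∀ c ∈ t, c ≤ b}
      ⟨[b], by simp, by simp⟩ (card_lists l hl b)
    let G : P → l.ord.ToType × l.ord.ToType → Prop := fun s z =>
      ∃ v, K s (τ z.1).1 v ∧ z.2 = v.getD b
    have hGm : ∀ q r z, r ≤ q → G q z → G r z :=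
      fun q r z h ⟨v, hv, hz⟩ => ⟨v, hKm q r _ v h hv, hz⟩
    have hGf : IsFn G q := by
      constructor
      · intro x q' hq'
        obtain ⟨r, hr, v, hv⟩ := hKt q' (hq'.trans hq) (τ x).1 (τ x).2.1
        exact ⟨r, hr, v.getD b, In_of hGm ⟨v, hv, rfl⟩⟩
      · intro x q' hq' y y' h h'
        obtain ⟨r, hr, v, hv, e⟩ := ex_of_In hGm h
        obtain ⟨r', hr', v', hv', e'⟩ := ex_of_In hGm (In_mono h' hr)
        have h1 := hKu r' ((hr'.trans hr).trans (hq'.trans hq)) _ v v' (hKm r r' _ v hr' hv) hv'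
        subst h1
        exact e.trans e'.symm
    obtain ⟨r, hr, c, hc⟩ := hreg G q hq hGf b'
    refine ⟨r, hr, c, fun t ht htb s' hs' a hK => ?_⟩
    obtain ⟨x, hx, hxt⟩ := hτ ⟨t, ht, htb⟩
    refine hc x hx s' hs' a (In_of hGm ⟨some a, ?_, rfl⟩)
    rw [hxt]
    exact hK
  let F : P → l.ord.ToType × l.ord.ToType → Prop := fun s z =>
    E s z.1 z.2 ∧ ∀ y' < z.2, ∀ s' ≤ s, ¬ E s' z.1 y'
  have hFm : ∀ q r z, r ≤ q → F q z → F r z := fun q r z h ⟨h1, h2⟩ =>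
    ⟨hEm _ _ _ _ h h1, fun y' hy' s' hs' => h2 y' hy' s' (hs'.trans h)⟩
  have hFt : ∀ b, ∀ q ≤ p, ∃ r ≤ q, ∃ y, F r (b, y) := by
    intro b q hq
    have hne : {y | ∃ s ≤ q, E s b y}.Nonempty := by
      obtain ⟨s, hs, y, hy⟩ := claim q hq b
      exact ⟨y, s, hs, hy⟩
    obtain ⟨y, ⟨s, hs, hE⟩, hmin⟩ :=
      (wellFounded_lt (α := l.ord.ToType)).has_min {y | ∃ s ≤ q, E s b y} hne
    exact ⟨s, hs, y, hE, fun y' hy' s' hs' hE' => hmin y' ⟨s', hs'.trans hs, hE'⟩ hy'⟩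
  have hFu : ∀ x, ∀ q, ∀ y y', In F q (x, y) → In F q (x, y') → ¬ y < y' := by
    intro x q y y' h h' hlt
    obtain ⟨r, hr, hF⟩ := ex_of_In hFm h
    obtain ⟨r', hr', hF'⟩ := ex_of_In hFm (In_mono h' hr)
    exact hF'.2 y hlt r' le_rfl (hEm _ _ _ _ hr' hF.1)
  have hFf : IsFn F p := by
    constructor
    · intro x q hq
      obtain ⟨r, hr, y, hy⟩ := hFt x q hq
      exact ⟨r, hr, y, In_of hFm hy⟩
    · intro x q _ y y' h h'
      exact le_antisymm (not_lt.1 (hFu x q y' y h' h)) (not_lt.1 (hFu x q y y' h h'))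
  obtain ⟨r, hr, δ, hδS, -, hδ⟩ := hS F p le_rfl hFf
  refine ⟨r, hr, δ, hδS, fun t ht htδ q hq a hK => ?_⟩
  obtain ⟨b, hb, hbm⟩ : ∃ b ∈ t, ∀ c ∈ t, c ≤ b := by
    have hne : t.toFinset.Nonempty := by
      rw [List.toFinset_nonempty_iff]
      exact ht
    refine ⟨t.toFinset.max' hne, List.mem_toFinset.1 (Finset.max'_mem _ hne), fun c hc => ?_⟩
    exact Finset.le_max' _ _ (List.mem_toFinset.2 hc)
  obtain ⟨q', hq', y, hy⟩ := hFt b q (hq.trans hr)
  have h1 : y < δ := hδ b (htδ b hb) q' (hq'.trans hq) y (In_of hFm hy)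
  exact (hy.1 t ht hbm q' le_rfl a (hKm q q' t _ hq' hK)).trans h1

end Pool.Agent.W910.LC.T_L4
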