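import Pool.Agent.W910.LC.Stmts

/-! # A forced set of order type `ω` is covered by a countable set -/

set_option autoImplicit false

open Cardinal Set

namespace Pool.Agent.W910.LC.T_L5

open Pool.Agent.W910.LC

universe u

theorem in_mono {P : Type u} [Preorder P] {X : Type u} {N : P → X → Prop} {p q : P} {x : X}
    (h : In N p x) (hq : q ≤ p) : In N q x := fun r hr => h r (hr.trans hq)

theorem main : S_cover.{u} := by
  intro P _ hsig L _ _ A a p h1 h2 h3
  classical
  have hstep : ∀ x : {x : P × Finset L // x.1 ≤ p}, ∃ (y : {x : P × Finset L // x.1 ≤ p}) (c : L),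
      y.1.1 ≤ x.1.1 ∧ c ∉ x.1.2 ∧ y.1.2 = insert c x.1.2 ∧ In A y.1.1 (a, c) ∧
      ∀ c', c' ∉ x.1.2 → (∃ s ≤ x.1.1, In A s (a, c')) → c ≤ c' := by
    intro x
    have hne : {c : L | c ∉ x.1.2 ∧ ∃ s ≤ x.1.1, In A s (a, c)}.Nonempty := by
      obtain ⟨s, hs, c, hc, hin⟩ := h2 x.1.2 x.1.1 x.2
      exact ⟨c, hc, s, hs, hin⟩
    set c := (wellFounded_lt (α := L)).min _ hne with hc
    obtain ⟨hc1, s, hs, hin⟩ := (wellFounded_lt (α := L)).min_mem _ hne
    refine ⟨⟨(s, insert c x.1.2), hs.trans x.2⟩, c, hs, hc1, rfl, hin, ?_⟩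
    intro c' hc' hc''
    have hm : c' ∈ {c : L | c ∉ x.1.2 ∧ ∃ s ≤ x.1.1, In A s (a, c)} := ⟨hc', hc''⟩
    exact not_lt.1 ((wellFounded_lt (α := L)).not_lt_min _ hm)
  choose st cc hs1 hs2 hs3 hs4 hs5 using hstep
  let sq : ℕ → {x : P × Finset L // x.1 ≤ p} := fun n =>
    Nat.rec ⟨(p, ∅), le_refl p⟩ (fun _ x => st x) n
  have hsq0 : sq 0 = ⟨(p, ∅), le_refl p⟩ := rfl
  have hsq : ∀ n, sq (n + 1) = st (sq n) := fun n => rfl
  let c : ℕ → L := fun n => cc (sq n)
  have hmem : ∀ n, ∀ x ∈ (sq n).1.2, x ∈ Set.range c := by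
    intro n
    induction n with
    | zero =>
      intro x hx
      rw [hsq0] at hx
      simp at hx
    | succ n ih =>
      intro x hx
      rw [hsq, hs3, Finset.mem_insert] at hx
      rcases hx with rfl | hx
      · exact ⟨n, rfl⟩
      · exact ih x hx
  have hlt : ∀ n m, m < n → c m ∈ (sq n).1.2 := by
    intro n
    induction n with
    | zero => intro m hm; omega
    | succ n ih =>
      intro m hm
      rw [hsq, hs3, Finset.mem_insert]
      rcases Nat.lt_succ_iff_lt_or_eq.1 hm with h | h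
      · exact Or.inr (ih m h)
      · rw [h]
        exact Or.inl rfl
  have hinj : Function.Injective c := by
    intro m n hmn
    rcases lt_trichotomy m n with h | h | h
    · have h5 := hlt n m h
      rw [hmn] at h5
      exact absurd h5 (hs2 (sq n))
    · exact h
    · have h5 := hlt m n h
      rw [← hmn] at h5
      exact absurd h5 (hs2 (sq m))
  obtain ⟨r, hr⟩ := hsig (fun n => (sq n).1.1) (fun n => by
    rw [hsq]
    exact hs1 (sq n))
  have hin : ∀ n, In A r (a, c n) := fun n => in_mono (hs4 (sq n)) (hr (n + 1))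
  refine ⟨r, hr 0, Set.range c, Set.countable_range c, ⟨c 0, 0, rfl⟩, ?_, ?_⟩
  · rintro _ ⟨n, rfl⟩
    exact h1 r (hr 0) (c n) (hin n)
  · intro r' hr' x hx
    by_contra hcon
    have hlt' : ∀ n, c n < x := by
      intro n
      have hle : c n ≤ x := hs5 (sq n) x (fun h => hcon (hmem n x h))
        ⟨r', hr'.trans (hr n), hx⟩
      exact lt_of_le_of_ne hle fun h => hcon ⟨n, h⟩
    obtain ⟨s', hs', t, ht⟩ := h3 r' (hr'.trans (hr 0)) x hx
    have hsub : Set.range c ⊆ (t : Set L) := by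
      rintro _ ⟨n, rfl⟩
      exact ht s' (le_refl s') (c n) (hlt' n) (in_mono (hin n) (hs'.trans hr'))
    exact (Set.infinite_range_of_injective hinj) (t.finite_toSet.subset hsub)

end Pool.Agent.W910.LC.T_L5
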