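import Pool.Agent.W910.LC.Stmts

/-! Project LC: L6, closing off a countable set. -/

set_option autoImplicit false

open Cardinal Set

namespace Pool.Agent.W910.LC.T_L6

universe u

theorem step1 {P : Type u} [Preorder P] (hS : Sig P) {L : Type u}
    (K : P → List L → Option L → Prop) (p : P)
    (hK : ∀ q r t v, r ≤ q → K q t v → K r t v)
    (hT : ∀ q ≤ p, ∀ t, t ≠ [] → ∃ r ≤ q, ∃ v, K r t v)
    (q : P) (hq : q ≤ p) (T : Set (List L)) (hc : T.Countable) (hne : ∀ t ∈ T, t ≠ []) :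
    ∃ r ≤ q, ∀ t ∈ T, ∃ v, K r t v := by
  rcases T.eq_empty_or_nonempty with rfl | hTn
  · exact ⟨q, le_refl q, fun t ht => absurd ht (Set.notMem_empty t)⟩
  obtain ⟨e, he⟩ := hc.exists_eq_range hTn
  have hen : ∀ n, e n ≠ [] := fun n => hne _ (he ▸ Set.mem_range_self n)
  have h : ∀ (n : ℕ) (r : {r : P // r ≤ q}), ∃ r' : {r : P // r ≤ q}, r'.1 ≤ r.1 ∧
      ∃ v, K r'.1 (e n) v := by
    intro n r
    obtain ⟨r', h1, h2⟩ := hT r.1 (le_trans r.2 hq) (e n) (hen n)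
    exact ⟨⟨r', le_trans h1 r.2⟩, h1, h2⟩
  choose st hst1 hst2 using h
  let sq : ℕ → {r : P // r ≤ q} := fun n => Nat.rec ⟨q, le_refl q⟩ (fun n r => st n r) n
  have hs : ∀ n, sq (n + 1) = st n (sq n) := fun n => rfl
  obtain ⟨r, hr⟩ := hS (fun n => (sq n).1) (fun n => by
    show (sq (n + 1)).1 ≤ (sq n).1
    rw [hs]
    exact hst1 n (sq n))
  refine ⟨r, le_trans (hr 0) (sq 0).2, ?_⟩
  intro t ht
  rw [he] at ht
  obtain ⟨n, rfl⟩ := ht
  obtain ⟨v, hv⟩ := hst2 n (sq n)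
  refine ⟨v, hK (sq (n + 1)).1 r _ _ (hr (n + 1)) ?_⟩
  rw [hs]
  exact hv

theorem cl {L : Type u} (y : Set L) (hy : y.Countable) :
    {t : List L | t ≠ [] ∧ ∀ a ∈ t, a ∈ y}.Countable := by
  have : Countable y := hy.to_subtype
  refine (Set.countable_range (List.map (Subtype.val : y → L))).mono ?_
  rintro t ⟨_, ht⟩
  lift t to List y using ht
  exact Set.mem_range_self t

theorem main : S_close.{u} := by
  intro P _ hS L _ K p δ s hK hT hd hsc hsd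
  have h : ∀ x : {x : P × Set L // x.1 ≤ p ∧ x.2.Countable ∧ ∀ c ∈ x.2, c < δ},
      ∃ x' : {x : P × Set L // x.1 ≤ p ∧ x.2.Countable ∧ ∀ c ∈ x.2, c < δ},
        x'.1.1 ≤ x.1.1 ∧ x.1.2 ⊆ x'.1.2 ∧ ∀ t, t ≠ [] → (∀ a ∈ t, a ∈ x.1.2) →
          ∃ v, K x'.1.1 t v ∧ ∀ a, v = some a → a ∈ x'.1.2 := by
    rintro ⟨⟨r, y⟩, hr, hyc, hyd⟩
    obtain ⟨r', hr', hv⟩ := step1 hS K p hK hT r hr {t : List L | t ≠ [] ∧ ∀ a ∈ t, a ∈ y}
      (cl y hyc) (fun t ht => ht.1)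
    have hv' : ∀ t : List L, ∃ v, t ∈ {t : List L | t ≠ [] ∧ ∀ a ∈ t, a ∈ y} → K r' t v := by
      intro t
      by_cases ht : t ∈ {t : List L | t ≠ [] ∧ ∀ a ∈ t, a ∈ y}
      · obtain ⟨v, h⟩ := hv t ht
        exact ⟨v, fun _ => h⟩
      · exact ⟨none, fun h => absurd h ht⟩
    choose v hv2 using hv'
    refine ⟨⟨(r', y ∪ {a | ∃ t ∈ {t : List L | t ≠ [] ∧ ∀ a ∈ t, a ∈ y}, v t = some a}),
      le_trans hr' hr, ?_, ?_⟩, hr', Set.subset_union_left, ?_⟩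
    · refine hyc.union ?_
      have h1 : (v '' {t : List L | t ≠ [] ∧ ∀ a ∈ t, a ∈ y}).Countable := (cl y hyc).image v
      refine (h1.preimage_of_injOn (f := some)
        ((Option.some_injective L).injOn)).mono ?_
      rintro a ⟨t, ht, hta⟩
      exact ⟨t, ht, hta⟩
    · rintro c (hc | ⟨t, ht, hta⟩)
      · exact hyd c hc
      · refine hd t ht.1 (fun a ha => hyd a (ht.2 a ha)) r' (le_trans hr' hr) c ?_
        rw [← hta]
        exact hv2 t ht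
    · intro t ht hty
      exact ⟨v t, hv2 t ⟨ht, hty⟩, fun a ha => Or.inr ⟨t, ⟨ht, hty⟩, ha⟩⟩
  choose st h1 h2 h3 using h
  let sq : ℕ → {x : P × Set L // x.1 ≤ p ∧ x.2.Countable ∧ ∀ c ∈ x.2, c < δ} :=
    fun n => Nat.rec ⟨(p, s), le_refl p, hsc, hsd⟩ (fun _ x => st x) n
  have hs : ∀ n, sq (n + 1) = st (sq n) := fun n => rfl
  have hs0 : (sq 0).1.2 = s := rfl
  obtain ⟨r, hr⟩ := hS (fun n => (sq n).1.1) (fun n => by
    show (sq (n + 1)).1.1 ≤ (sq n).1.1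
    rw [hs]
    exact h1 (sq n))
  have hmono : Monotone (fun n => (sq n).1.2) := monotone_nat_of_le_succ (fun n => by
    show (sq n).1.2 ⊆ (sq (n + 1)).1.2
    rw [hs]
    exact h2 (sq n))
  refine ⟨r, le_trans (hr 0) (sq 0).2.1, ⋃ n, (sq n).1.2, ?_, ?_, ?_, ?_⟩
  · rw [← hs0]
    exact Set.subset_iUnion (fun n => (sq n).1.2) 0
  · exact Set.countable_iUnion (fun n => (sq n).2.2.1)
  · intro c hc
    obtain ⟨n, hn⟩ := Set.mem_iUnion.mp hc
    exact (sq n).2.2.2 c hn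
  · intro t ht hty
    have hn : ∀ t : List L, (∀ a ∈ t, a ∈ ⋃ n, (sq n).1.2) → ∃ n, ∀ a ∈ t, a ∈ (sq n).1.2 := by
      intro t
      induction t with
      | nil => exact fun _ => ⟨0, fun a ha => absurd ha (List.not_mem_nil)⟩
      | cons b t ih =>
        intro hbt
        obtain ⟨n, hn⟩ := ih (fun a ha => hbt a (List.mem_cons_of_mem b ha))
        obtain ⟨k, hk⟩ := Set.mem_iUnion.mp (hbt b List.mem_cons_self)
        refine ⟨max n k, fun a ha => ?_⟩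
        rcases List.mem_cons.mp ha with rfl | ha
        · exact hmono (le_max_right n k) hk
        · exact hmono (le_max_left n k) (hn a ha)
    obtain ⟨n, hn⟩ := hn t hty
    obtain ⟨v, hv, hva⟩ := h3 (sq n) t ht hn
    refine ⟨v, hK (sq (n + 1)).1.1 r _ _ (hr (n + 1)) ?_, fun a ha => ?_⟩
    · rw [hs]
      exact hv
    · refine Set.mem_iUnion.mpr ⟨n + 1, ?_⟩
      rw [hs]
      exact hva a ha

end Pool.Agent.W910.LC.T_L6
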