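import Pool.Agent.W910.LC.Stmts

/-! The tree of antichains. -/

set_option autoImplicit false

open Cardinal Set

namespace Pool.Agent.W910.LC.T_L7

universe u

variable {κ : Cardinal.{u}} {L : Type u}

theorem res_mono (α : κ.ord.ToType) {p q : Col κ} (h : p ≤ q) : res α p ≤ res α q := by
  intro t ht
  exact ⟨h ht.1, ht.2⟩

theorem bel_res (α : κ.ord.ToType) (p : Col κ) : Bel α (res α p) := fun _ ht => ht.2

/-- antichains of decided extensions -/
def Ant (α : κ.ord.ToType) (Dec : Col κ → L → Option L → Prop) (u : Col κ) (c : L)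
    (M : Set (Col κ × Option L)) : Prop :=
  (∀ x ∈ M, x.1 ≤ u ∧ Dec x.1 c x.2) ∧
    ∀ x ∈ M, ∀ y ∈ M, ∀ q : Col κ, Bel α q → q ≤ res α x.1 → q ≤ res α y.1 → x = y

theorem exists_max (α : κ.ord.ToType) (Dec : Col κ → L → Option L → Prop) (u : Col κ) (c : L) :
    ∃ M : Set (Col κ × Option L), Ant α Dec u c M ∧
      ∀ w v, w ≤ u → Dec w c v → ∃ x ∈ M, ∃ r : Col κ, Bel α r ∧ r ≤ res α w ∧ r ≤ res α x.1 := by
  obtain ⟨M, hM⟩ := zorn_subset {M : Set (Col κ × Option L) | Ant α Dec u c M} (by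
    intro ch hch hchain
    refine ⟨⋃₀ ch, ⟨?_, ?_⟩, fun s hs => Set.subset_sUnion_of_mem hs⟩
    · rintro x ⟨s, hs, hx⟩
      exact (hch hs).1 x hx
    · rintro x ⟨s, hs, hx⟩ y ⟨s', hs', hy⟩ q hq hqx hqy
      rcases hchain.total hs hs' with h | h
      · exact (hch hs').2 x (h hx) y hy q hq hqx hqy
      · exact (hch hs).2 x hx y (h hy) q hq hqx hqy)
  refine ⟨M, hM.1, ?_⟩
  intro w v hw hv
  by_contra hcon
  push Not at hcon
  have hins : Ant α Dec u c (insert (w, v) M) := by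
    refine ⟨?_, ?_⟩
    · intro x hx
      rcases hx with rfl | hx
      · exact ⟨hw, hv⟩
      · exact hM.1.1 x hx
    · intro x hx y hy q hq hqx hqy
      rcases hx with rfl | hx
      · rcases hy with rfl | hy
        · rfl
        · exact absurd hqy (hcon y hy q hq hqx)
      · rcases hy with rfl | hy
        · exact absurd hqx (hcon x hx q hq hqy)
        · exact hM.1.2 x hx y hy q hq hqx hqy
  have hmem : (w, v) ∈ M := hM.2 hins (Set.subset_insert _ _) (Set.mem_insert _ _)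
  exact hcon (w, v) hmem (res α w) (bel_res α w) le_rfl le_rfl

/-- the tree -/
def ZZ (M : Col κ → L → Set (Col κ × Option L)) (u₀ : Col κ) : List L → Set (Col κ × Option L)
  | [] => {(u₀, none)}
  | c :: t => {x | ∃ y ∈ ZZ M u₀ t, x ∈ M y.1 c}

theorem main (hA : S_amal.{u}) : S_treeZ.{u} := by
  intro κ L α u₀ Dec hDec
  choose M hM1 hM2 using fun u c => exists_max α Dec u c
  refine ⟨ZZ M u₀, rfl, ?_, ?_, ?_⟩
  · rintro t c w v ⟨y, hy, hx⟩
    exact ⟨((hM1 y.1 c).1 _ hx).2, y.1, y.2, hy, ((hM1 y.1 c).1 _ hx).1⟩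
  · intro t
    induction t with
    | nil =>
      intro w v w' v' q h h' _ _ _
      have h1 : (w, v) = (u₀, none) := h
      have h2 : (w', v') = (u₀, none) := h'
      have h3 := h1.trans h2.symm
      exact ⟨congrArg Prod.fst h3, congrArg Prod.snd h3⟩
    | cons c t ih =>
      rintro w v w' v' q ⟨y, hy, hx⟩ ⟨y', hy', hx'⟩ hq hqw hqw'
      have h1 : w ≤ y.1 := ((hM1 y.1 c).1 _ hx).1
      have h2 : w' ≤ y'.1 := ((hM1 y'.1 c).1 _ hx').1
      have h3 := ih y.1 y.2 y'.1 y'.2 q hy hy' hq (hqw.trans (res_mono α h1))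
        (hqw'.trans (res_mono α h2))
      have h4 : y = y' := Prod.ext h3.1 h3.2
      subst h4
      have h5 := (hM1 y.1 c).2 _ hx _ hx' q hq hqw hqw'
      exact ⟨congrArg Prod.fst h5, congrArg Prod.snd h5⟩
  · have hle : ∀ t, ∀ x ∈ ZZ M u₀ t, x.1 ≤ u₀ := by
      intro t
      induction t with
      | nil =>
        intro x hx
        have h1 : x = (u₀, none) := hx
        rw [h1]
      | cons c t ih =>
        rintro x ⟨y, hy, hx⟩
        exact (((hM1 y.1 c).1 _ hx).1).trans (ih y hy)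
    intro t
    induction t with
    | nil =>
      intro q hq hqu
      exact ⟨u₀, none, q, rfl, hq, le_rfl, hqu⟩
    | cons c t ih =>
      intro q hq hqu
      obtain ⟨u, v', r, hu, hr, hrq, hru⟩ := ih q hq hqu
      obtain ⟨w0, -, -, hw0u, hw0r, -⟩ := hA κ α r u hr hru
      have huu0 : u ≤ u₀ := hle t (u, v') hu
      obtain ⟨w, hw, v, hv⟩ := hDec w0 (hw0u.trans huu0) c
      obtain ⟨x, hx, r', hr', hr'w, hr'x⟩ := hM2 u c w v (hw.trans hw0u) hv
      exact ⟨x.1, x.2, r', ⟨(u, v'), hu, hx⟩, hr', (hr'w.trans (res_mono α hw)).trans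
        (hw0r.trans hrq), hr'x⟩

end Pool.Agent.W910.LC.T_L7
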