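import Pool.Agent.W910.LC.Stmts

/-! The main argument: `S_large`. -/

set_option autoImplicit false

open Cardinal Set

namespace Pool.Agent.W910.LC.T_L8

universe u

theorem in_mono {P : Type u} [Preorder P] {X : Type u} {N : P → X → Prop} {p q : P} {x : X}
    (h : In N p x) (hq : q ≤ p) : In N q x := fun r hr => h r (hr.trans hq)

theorem res_mono {κ : Cardinal.{u}} (α : κ.ord.ToType) {p q : Col κ} (h : p ≤ q) :
    res α p ≤ res α q := fun _ ht => ⟨h ht.1, ht.2⟩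

/-- the decision predicate -/
def Dec {κ : Cardinal.{u}} {L : Type u} [LinearOrder L] (S : Col κ → L → Prop)
    (A f : Col κ → L × L → Prop) (x : Set (Col κ ⊕ L)) (u : Col κ) (c : L) : Option L → Prop
  | some a' => Sum.inr a' ∈ x ∧ In S u a' ∧ In A u (a', c) ∧ ∃ d, In f u (a', d) ∧ d ≤ c
  | none => ∀ a', Sum.inr a' ∈ x → ∀ u' ≤ u,
      ¬ (In S u' a' ∧ In A u' (a', c) ∧ ∃ d, In f u' (a', d) ∧ d ≤ c)

theorem dec_ex {κ : Cardinal.{u}} {L : Type u} [LinearOrder L] (S : Col κ → L → Prop)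
    (A f : Col κ → L × L → Prop) (x : Set (Col κ ⊕ L)) (u : Col κ) (c : L) :
    ∃ w ≤ u, ∃ v, Dec S A f x w c v := by
  by_cases h : ∃ a', Sum.inr a' ∈ x ∧ ∃ u' ≤ u,
      (In S u' a' ∧ In A u' (a', c) ∧ ∃ d, In f u' (a', d) ∧ d ≤ c)
  · obtain ⟨a', ha', u', hu', h1, h2, h3⟩ := h
    exact ⟨u', hu', some a', ha', h1, h2, h3⟩
  · refine ⟨u, le_refl u, none, ?_⟩
    intro a' ha' u' hu' h'
    exact h ⟨a', ha', u', hu', h'⟩

/-- the local function -/
def Kx {κ : Cardinal.{u}} {L : Type u} (α : κ.ord.ToType) (Z : List L → Set (Col κ × Option L))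
    (q : Col κ) (t : List L) (v : Option L) : Prop :=
  Bel α q ∧ ∃ w, (w, v) ∈ Z t ∧ q ≤ res α w

/-- the initial lists -/
def tl {L : Type u} (c : ℕ → L) : ℕ → List L
  | 0 => [c 0]
  | n + 1 => c (n + 1) :: tl c n

theorem tl_ne {L : Type u} (c : ℕ → L) (n : ℕ) : tl c n ≠ [] := by
  cases n <;> simp [tl]

theorem tl_mem {L : Type u} (c : ℕ → L) (n : ℕ) : ∀ a ∈ tl c n, a ∈ range c := by
  induction n with
  | zero => intro a ha; simp only [tl, List.mem_singleton] at ha; exact ⟨0, ha.symm⟩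
  | succ n ih =>
    intro a ha
    simp only [tl, List.mem_cons] at ha
    rcases ha with rfl | ha
    · exact ⟨n + 1, rfl⟩
    · exact ih a ha

theorem main (hs : S_sigma.{u}) (ha : S_amal.{u}) (hu : S_uf.{u}) (hb : S_bdd.{u})
    (hc : S_clo.{u}) (hv : S_cover.{u}) (hcl : S_close.{u}) (hz : S_treeZ.{u}) : S_large.{u} := by
  intro κ hκ l hl hκl p0 hreg hads
  obtain ⟨S, A, hS, hA, hbeta⟩ := hads
  obtain ⟨U, U1, U2, U3, U4, U5⟩ := hu κ hκ l.ord.ToType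
  have hsig : Sig (Col κ) := by
    intro p hp
    obtain ⟨q, hq⟩ := hs κ p hp
    refine ⟨q, fun n => ?_⟩
    intro t ht
    rw [hq]
    exact mem_iUnion.2 ⟨n, ht⟩
  have hl0 : ℵ₀ ≤ l := (Cardinal.aleph0_le_aleph 1).trans hl.le
  obtain ⟨b0, -⟩ := hb (Col κ) l p0 hl0 hreg ∅ (by
    rw [Cardinal.mk_emptyCollection]; exact Cardinal.aleph0_pos.trans_le hl0)
  -- the data for `x`
  have hdata : ∀ x : Set (Col κ ⊕ l.ord.ToType), ∃ (β : l.ord.ToType) (r : Col κ)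
      (f : Col κ → l.ord.ToType × l.ord.ToType → Prop), r ≤ p0 ∧ (#x < κ →
      (∀ a, Sum.inr a ∈ x → a < β) ∧
      (∀ a < β, ∀ s ≤ r, In S s a → ∃ s' ≤ s, ∃ c d, In A s' (a, c) ∧ In f s' (a, d) ∧ d < c) ∧
      ∀ a < β, ∀ a' < β, a ≠ a' → ∀ s ≤ r, In S s a → In S s a' →
        ∀ c d d', In A s (a, c) → In A s (a', c) → In f s (a, d) → In f s (a', d') →
          d ≤ c → d' ≤ c → False) := by
    intro x
    by_cases hx : #x < κ
    · have h1 : #({a | Sum.inr a ∈ x} : Set l.ord.ToType) < l := by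
        refine lt_of_le_of_lt ?_ (hx.trans_le hκl)
        refine Cardinal.mk_le_of_injective (f := fun a => (⟨Sum.inr a.1, a.2⟩ : x)) ?_
        intro a b hab
        have := congrArg Subtype.val hab
        exact Subtype.ext (Sum.inr_injective this)
      obtain ⟨β, hβ⟩ := hb (Col κ) l p0 hl0 hreg _ h1
      obtain ⟨r, hr, f, -, hf1, hf2⟩ := hbeta β p0 (le_refl p0)
      exact ⟨β, r, f, hr, fun _ => ⟨fun a ha => hβ a ha, hf1, hf2⟩⟩
    · exact ⟨b0, p0, fun _ _ => False, le_refl p0, fun h => absurd h hx⟩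
  choose β r f hr hdat using hdata
  obtain ⟨x0, α0, -⟩ := U5.exists
  have hα0 : ∀ x : Set (Col κ ⊕ l.ord.ToType), ∃ α : κ.ord.ToType,
      (∃ α', ∀ p : Col κ, Sum.inl p ∈ x ↔ Bel α' p) → ∀ p : Col κ, Sum.inl p ∈ x ↔ Bel α p := by
    intro x
    by_cases h : ∃ α' : κ.ord.ToType, ∀ p : Col κ, Sum.inl p ∈ x ↔ Bel α' p
    · obtain ⟨α', h'⟩ := h
      exact ⟨α', fun _ => h'⟩
    · exact ⟨α0, fun h' => absurd h' h⟩
  choose α hα using hα0
  have E1 : ∀ᶠ x in (U : Filter (Set (Col κ ⊕ l.ord.ToType))),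
      ∀ p : Col κ, Sum.inl p ∈ x ↔ Bel (α x) p := U5.mono fun x hx => hα x hx
  have E2 : ∀ q : Col κ, ∀ᶠ x in (U : Filter (Set (Col κ ⊕ l.ord.ToType))), Bel (α x) q :=
    fun q => (E1.and (U3 (Sum.inl q))).mono fun x hx => (hx.1 q).1 hx.2
  -- the condition `p1`
  obtain ⟨⟨p1, t1, v1⟩, hp1c⟩ := U4 (fun x => (res (α x) (r x), [], none)) (E1.mono fun x hx => by
    refine ⟨(hx _).2 (fun t ht => ht.2), ?_, ?_⟩
    · intro a ha; simp at ha
    · intro a ha; simp at ha)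
  have hp1 : ∀ᶠ x in (U : Filter (Set (Col κ ⊕ l.ord.ToType))), res (α x) (r x) = p1 :=
    hp1c.mono fun x hx => congrArg Prod.fst hx
  have hp10 : p1 ≤ p0 := by
    obtain ⟨x, hx1, hx2⟩ := (hp1.and (E2 p0)).exists
    rw [← hx1]
    intro t ht
    exact ⟨hr x ht, hx2 t ht⟩
  have hZ := fun x => hz κ l.ord.ToType (α x) (r x) (Dec S A (f x) x)
    (fun u _ c => dec_ex S A (f x) x u c)
  choose Z Z1 Z2 Z3 Z4 using hZ
  set K : Col κ → List l.ord.ToType → Option l.ord.ToType → Prop := fun q t v =>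
    ∀ᶠ x in (U : Filter (Set (Col κ ⊕ l.ord.ToType))), Kx (α x) (Z x) q t v with hK
  have Kmono : ∀ q r t v, r ≤ q → K q t v → K r t v := by
    intro q r' t v hrq hKq
    filter_upwards [hKq, E2 r'] with x hx1 hx2
    obtain ⟨_, w, hw, hq⟩ := hx1
    exact ⟨hx2, w, hw, hrq.trans hq⟩
  have hlist : ∀ t : List l.ord.ToType, ∀ᶠ x in (U : Filter (Set (Col κ ⊕ l.ord.ToType))),
      ∀ a ∈ t, Sum.inr a ∈ x := by
    intro t
    induction t with
    | nil => exact Filter.Eventually.of_forall fun x a ha => by simp at ha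
    | cons b t ih =>
      filter_upwards [ih, U3 (Sum.inr b)] with x hx1 hx2
      intro a ha
      rcases List.mem_cons.1 ha with rfl | ha
      · exact hx2
      · exact hx1 a ha
  have Ktot : ∀ q ≤ p1, ∀ t, t ≠ [] → ∃ r ≤ q, ∃ v, K r t v := by
    intro q hq t ht
    have h1 : ∀ x, ∃ r' v, (Bel (α x) q ∧ q ≤ res (α x) (r x)) →
        ∃ w, (w, v) ∈ Z x t ∧ Bel (α x) r' ∧ r' ≤ q ∧ r' ≤ res (α x) w := by
      intro x
      by_cases hx : Bel (α x) q ∧ q ≤ res (α x) (r x)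
      · obtain ⟨w, v, r', h1, h2, h3, h4⟩ := Z4 x t q hx.1 hx.2
        exact ⟨r', v, fun _ => ⟨w, h1, h2, h3, h4⟩⟩
      · exact ⟨q, none, fun h => absurd h hx⟩
    choose R V hRV using h1
    have h2 : ∀ᶠ x in (U : Filter (Set (Col κ ⊕ l.ord.ToType))),
        Bel (α x) q ∧ q ≤ res (α x) (r x) := by
      filter_upwards [E2 q, hp1] with x hx1 hx2
      exact ⟨hx1, by rw [hx2]; exact hq⟩
    obtain ⟨⟨r', t', v'⟩, h3⟩ := U4 (fun x => (R x, t, V x)) (by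
      filter_upwards [h2, E1, hlist t] with x hx1 hx2 hx3
      obtain ⟨w, hw1, hw2, hw3, hw4⟩ := hRV x hx1
      refine ⟨(hx2 _).2 hw2, hx3, ?_⟩
      intro a hVa
      obtain ⟨b, t'', rfl⟩ : ∃ b t'', t = b :: t'' := by
        cases t with
        | nil => exact absurd rfl ht
        | cons b t'' => exact ⟨b, t'', rfl⟩
      have h5 := (Z2 x t'' b w (V x) hw1).1
      have h6 : V x = some a := hVa
      rw [h6] at h5
      exact h5.1)
    refine ⟨r', ?_, v', ?_⟩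
    · obtain ⟨x, hx1, hx2⟩ := (h3.and h2).exists
      obtain ⟨w, hw1, hw2, hw3, hw4⟩ := hRV x hx2
      have : R x = r' := congrArg Prod.fst hx1
      rw [← this]; exact hw3
    · filter_upwards [h3, h2] with x hx1 hx2
      obtain ⟨w, hw1, hw2, hw3, hw4⟩ := hRV x hx2
      have e1 : R x = r' := congrArg Prod.fst hx1
      have e2 : V x = v' := congrArg (fun z => z.2.2) hx1
      rw [← e1, ← e2]
      exact ⟨hw2, w, hw1, hw4⟩
  have Ksing : ∀ q ≤ p1, ∀ t v v', K q t v → K q t v' → v = v' := by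
    intro q _ t v v' h1 h2
    obtain ⟨x, ⟨hx1, w, hw, hq⟩, ⟨_, w', hw', hq'⟩⟩ := (h1.and h2).exists
    exact (Z3 x t w v w' v' q hw hw' hx1 hq hq').2
  have hreg1 : ForcesRegular l.ord.ToType p1 := fun F q hq => hreg F q (hq.trans hp10)
  have hS1 : ForcesStationary S p1 := fun F q hq => hS F q (hq.trans hp10)
  obtain ⟨r1, hr1, δ, hδ, hclos⟩ := hc (Col κ) l p1 hl hreg1 S hS1 K Kmono Ktot Ksing
  obtain ⟨-, A1, A2, A3⟩ := hA δ r1 (hr1.trans hp10) hδ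
  obtain ⟨r2, hr2, s, hs1, hs2, hs3, hs4⟩ := hv (Col κ) hsig l.ord.ToType A δ r1 A1 A2 A3
  obtain ⟨r3, hr3, y, hy1, hy2, hy3, hy4⟩ := hcl (Col κ) hsig l.ord.ToType K r2 δ s Kmono
    (fun q hq => Ktot q (hq.trans (hr2.trans hr1)))
    (fun t ht h q hq => hclos t ht h q (hq.trans hr2)) hs1 hs3
  obtain ⟨c, hc'⟩ := hy2.exists_eq_range (hs2.mono hy1)
  have h4 : ∀ n, ∃ v, K r3 (tl c n) v ∧ ∀ a, v = some a → a ∈ y := fun n =>
    hy4 (tl c n) (tl_ne c n) (fun a ha => by rw [hc']; exact tl_mem c n a ha)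
  choose v hvK hvy using h4
  have h5 : ∀ᶠ x in (U : Filter (Set (Col κ ⊕ l.ord.ToType))),
      ∀ n, Kx (α x) (Z x) r3 (tl c n) (v n) := U2 _ hvK
  obtain ⟨x, hxK, hxc, hxα, hxδ⟩ := (h5.and (U1.and (E1.and (U3 (Sum.inr δ))))).exists
  have hBel : Bel (α x) r3 := (hxK 0).1
  have h6 : ∀ n, ∃ w, (w, v n) ∈ Z x (tl c n) ∧ r3 ≤ res (α x) w := fun n => (hxK n).2
  choose w hwZ hwr using h6
  have hdesc : ∀ n, w (n + 1) ≤ w n := by
    intro n
    obtain ⟨-, u, v', huv, hwu⟩ := Z2 x (tl c n) (c (n + 1)) (w (n + 1)) (v (n + 1)) (hwZ (n + 1))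
    have h7 := Z3 x (tl c n) u v' (w n) (v n) r3 huv (hwZ n) hBel
      ((hwr (n + 1)).trans (res_mono (α x) hwu)) (hwr n)
    rw [← h7.1]; exact hwu
  have hw0 : w 0 ≤ r x := by
    obtain ⟨-, u, v', huv, hwu⟩ := Z2 x [] (c 0) (w 0) (v 0) (hwZ 0)
    rw [Z1 x] at huv
    have : u = r x := congrArg Prod.fst (Set.mem_singleton_iff.1 huv)
    rw [← this]; exact hwu
  have hDec : ∀ n, Dec S A (f x) x (w n) (c n) (v n) := by
    intro n
    cases n with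
    | zero => exact (Z2 x [] (c 0) (w 0) (v 0) (hwZ 0)).1
    | succ n => exact (Z2 x (tl c n) (c (n + 1)) (w (n + 1)) (v (n + 1)) (hwZ (n + 1))).1
  obtain ⟨q, hq⟩ := hs κ w hdesc
  have hqw : ∀ n, q ≤ w n := by
    intro n t ht
    rw [hq]; exact mem_iUnion.2 ⟨n, ht⟩
  have hr3q : r3 ≤ res (α x) q := by
    intro t ht
    have h8 : t ∈ q.carrier := ht.1
    rw [hq] at h8
    obtain ⟨n, hn⟩ := mem_iUnion.1 h8
    exact hwr n ⟨hn, ht.2⟩
  obtain ⟨z, -, hz1, hz2, -, -⟩ := ha κ (α x) r3 q hBel hr3q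
  have hzS : In S z δ := in_mono hδ (hz1.trans (hr3.trans hr2))
  obtain ⟨hB0, hB1, hB2⟩ := hdat x hxc
  have hzr : z ≤ r x := hz2.trans ((hqw 0).trans hw0)
  obtain ⟨s', hs', c', d, hAc, hfd, hdc⟩ := hB1 δ (hB0 δ hxδ) z hzr hzS
  have hcs : c' ∈ y := hy1 (hs4 s' (hs'.trans (hz1.trans hr3)) c' hAc)
  rw [hc'] at hcs
  obtain ⟨n, rfl⟩ := hcs
  have hsw : s' ≤ w n := hs'.trans (hz2.trans (hqw n))
  have hD := hDec n
  rcases hvn : v n with _ | a
  · rw [hvn] at hD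
    exact hD δ hxδ s' hsw ⟨in_mono hzS hs', hAc, d, hfd, hdc.le⟩
  · rw [hvn] at hD
    obtain ⟨hax, hSa, hAa, d', hfa, hda⟩ := hD
    have haδ : a < δ := hy3 a (hvy n a hvn)
    exact hB2 a (hB0 a hax) δ (hB0 δ hxδ) haδ.ne s' (hs'.trans hzr) (in_mono hSa hsw)
      (in_mono hzS hs') (c n) d' d (in_mono hAa hsw) hAc (in_mono hfa hsw) hfd hda hdc.le

end Pool.Agent.W910.LC.T_L8
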