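import Pool.Agent.W910.LC.T_L1
import Pool.Agent.W910.LC.T_L2
import Pool.Agent.W910.LC.T_L3
import Pool.Agent.W910.LC.T_L4
import Pool.Agent.W910.LC.T_L5
import Pool.Agent.W910.LC.T_L6
import Pool.Agent.W910.LC.T_L7
import Pool.Agent.W910.LC.T_L8

/-! Assembly. -/

set_option autoImplicit false

open Cardinal Set

namespace Pool.Agent.W910.LC

universe u

theorem main : S_collapse.{u} := by
  intro κ hκ l hl p
  rcases lt_or_ge l κ with h | h
  · intro hr
    exact absurd hr (T_L2.main κ hκ.1 l hl h p)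
  · exact T_L8.main T_L1.sigma T_L1.amal T_L3.main T_L4.bdd T_L4.clo T_L5.main T_L6.main
      (T_L7.main T_L1.amal) κ hκ l hl h p

end Pool.Agent.W910.LC
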