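import Mathlib

/-!
# The Levy collapse of a supercompact cardinal and the principle `ADS⁻`

Supercompact cardinals, the poset `Col(ω₁, <κ)`, and the forcing relation for the statements
`λ is regular` and `ADS⁻(λ)`.
-/

set_option autoImplicit false

open Cardinal Set

namespace Pool.Agent.W910.LC

universe u

/-- `κ` is a supercompact cardinal: it is inaccessible, and for every `X` there is a fine, normal,
`κ`-complete ultrafilter on the set of the subsets of `X` of size less than `κ`. -/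
def Supercompact (κ : Cardinal.{u}) : Prop :=
  κ.IsInaccessible ∧ ∀ X : Type u, ∃ U : Ultrafilter (Set X),
    (∀ᶠ x : Set X in (U : Filter (Set X)), #x < κ) ∧
    (∀ (ι : Type u) (s : ι → Set (Set X)), #ι < κ →
      (∀ i, s i ∈ (U : Filter (Set X))) → (⋂ i, s i) ∈ (U : Filter (Set X))) ∧
    (∀ a : X, ∀ᶠ x : Set X in (U : Filter (Set X)), a ∈ x) ∧
    ∀ c : Set X → X, (∀ᶠ x : Set X in (U : Filter (Set X)), c x ∈ x) →
      ∃ a, ∀ᶠ x : Set X in (U : Filter (Set X)), c x = a

/-- `ω₁` as a type. -/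
abbrev Om : Type u := (ℵ₁ : Cardinal.{u}).ord.ToType

/-- The Levy collapse `Col(ω₁, <κ)`: countable partial functions `p` from `κ × ω₁` to `κ` with
`p(α, ξ) < α`, given by their graphs. -/
structure Col (κ : Cardinal.{u}) : Type u where
  carrier : Set (κ.ord.ToType × Om.{u} × κ.ord.ToType)
  ctbl : carrier.Countable
  lt : ∀ t ∈ carrier, t.2.2 < t.1
  fn : ∀ t ∈ carrier, ∀ t' ∈ carrier, t.1 = t'.1 → t.2.1 = t'.2.1 → t.2.2 = t'.2.2

/-- Stronger conditions are smaller. -/
instance (κ : Cardinal.{u}) : Preorder (Col κ) where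
  le p q := q.carrier ⊆ p.carrier
  le_refl p := Subset.refl p.carrier
  le_trans _ _ _ h h' := Subset.trans h' h

section Forcing

variable {P : Type u} [Preorder P]

/-- A `P`-name for a subset of `X` is a relation `N` between conditions and elements of `X`.
`In N p x`: the condition `p` forces that `x` belongs to the set named by `N`. -/
def In {X : Type u} (N : P → X → Prop) (p : P) (x : X) : Prop :=
  ∀ q ≤ p, ∃ r ≤ q, ∃ s, r ≤ s ∧ N s x

/-- `p` forces that the set of pairs named by `F` is a function from `X` to `Y`. -/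
def IsFn {X Y : Type u} (F : P → X × Y → Prop) (p : P) : Prop :=
  (∀ x, ∀ q ≤ p, ∃ r ≤ q, ∃ y, In F r (x, y)) ∧
    ∀ x, ∀ q ≤ p, ∀ y y', In F q (x, y) → In F q (x, y') → y = y'

variable {L : Type u} [LinearOrder L]

/-- `p` forces that every function from a proper initial segment of `L` to `L` is bounded
(for the well order `L` of length `λ`: that `λ` is a regular cardinal). -/
def ForcesRegular (L : Type u) [LinearOrder L] (p : P) : Prop :=
  ∀ (F : P → L × L → Prop), ∀ q ≤ p, IsFn F q → ∀ b, ∃ r ≤ q, ∃ c,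
    ∀ x < b, ∀ s ≤ r, ∀ y, In F s (x, y) → y < c

/-- `p` forces that the subset of `L` named by `S` is stationary: for every function it contains a
limit point which is closed under the function. -/
def ForcesStationary (S : P → L → Prop) (p : P) : Prop :=
  ∀ (F : P → L × L → Prop), ∀ q ≤ p, IsFn F q → ∃ r ≤ q, ∃ δ, In S r δ ∧
    ((∃ a, a < δ) ∧ ∀ a < δ, ∃ b, a < b ∧ b < δ) ∧
    ∀ a < δ, ∀ s ≤ r, ∀ y, In F s (a, y) → y < δ

/-- `p` forces `ADS⁻(λ)`, for the well order `L` of length `λ`: there are a stationary set `S` of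
points of cofinality `ω` and sets `A a ⊆ a` of order type `ω` (`a ∈ S`) such that for every
`β < λ` there is a function `f` for which the sets `A a \ f a`, `a ∈ S ∩ β`, are nonempty and
pairwise disjoint. -/
def ForcesADS (L : Type u) [LinearOrder L] (p : P) : Prop :=
  ∃ (S : P → L → Prop) (A : P → L × L → Prop), ForcesStationary S p ∧
    (∀ a, ∀ q ≤ p, In S q a →
      (∃ e : P → ULift.{u} ℕ × L → Prop, IsFn e q ∧
        (∀ r ≤ q, ∀ n y, In e r (n, y) → y < a) ∧
        ∀ b < a, ∀ r ≤ q, ∃ s ≤ r, ∃ n y, In e s (n, y) ∧ b < y) ∧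
      (∀ r ≤ q, ∀ c, In A r (a, c) → c < a) ∧
      (∀ t : Finset L, ∀ r ≤ q, ∃ s ≤ r, ∃ c, c ∉ t ∧ In A s (a, c)) ∧
      ∀ r ≤ q, ∀ c, In A r (a, c) → ∃ s ≤ r, ∃ t : Finset L,
        ∀ s' ≤ s, ∀ d < c, In A s' (a, d) → d ∈ t) ∧
    ∀ β, ∀ q ≤ p, ∃ r ≤ q, ∃ f : P → L × L → Prop, IsFn f r ∧
      (∀ a < β, ∀ s ≤ r, In S s a → ∃ s' ≤ s, ∃ c d, In A s' (a, c) ∧ In f s' (a, d) ∧ d < c) ∧
      ∀ a < β, ∀ a' < β, a ≠ a' → ∀ s ≤ r, In S s a → In S s a' →
        ∀ c d d', In A s (a, c) → In A s (a', c) → In f s (a, d) → In f s (a', d') →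
          d ≤ c → d' ≤ c → False

end Forcing

/-- After the Levy collapse of a supercompact cardinal `κ` to `ω₂`, `ADS⁻(λ)` fails for every
regular cardinal `λ > ω₁`. -/
def S_collapse : Prop := ∀ κ : Cardinal.{u}, Supercompact κ → ∀ l : Cardinal.{u}, ℵ₁ < l →
  ∀ p : Col κ, ForcesRegular l.ord.ToType p → ¬ ForcesADS l.ord.ToType p

end Pool.Agent.W910.LC
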