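import Pool.Agent.W910.LC.Defs

/-! Statements of the parts of the proof of `S_collapse`. -/

set_option autoImplicit false

open Cardinal Set

namespace Pool.Agent.W910.LC

universe u

/-- The support of `p` lies below `α`. -/
def Bel {κ : Cardinal.{u}} (α : κ.ord.ToType) (p : Col κ) : Prop := ∀ t ∈ p.carrier, t.1 < α

/-- The restriction of `p` to the coordinates below `α`. -/
def res {κ : Cardinal.{u}} (α : κ.ord.ToType) (p : Col κ) : Col κ where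
  carrier := {t | t ∈ p.carrier ∧ t.1 < α}
  ctbl := p.ctbl.mono fun _ h => h.1
  lt := fun t h => p.lt t h.1
  fn := fun t h t' h' => p.fn t h.1 t' h'.1

/-- Descending sequences have lower bounds. -/
def Sig (P : Type u) [Preorder P] : Prop :=
  ∀ p : ℕ → P, (∀ n, p (n + 1) ≤ p n) → ∃ q, ∀ n, q ≤ p n

/-! ### The poset -/

def S_sigma : Prop := ∀ (κ : Cardinal.{u}) (p : ℕ → Col κ), (∀ n, p (n + 1) ≤ p n) →
  ∃ q : Col κ, q.carrier = ⋃ n, (p n).carrier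

def S_amal : Prop := ∀ (κ : Cardinal.{u}) (α : κ.ord.ToType) (q u : Col κ), Bel α q →
  q ≤ res α u → ∃ w : Col κ, w.carrier = q.carrier ∪ u.carrier ∧ w ≤ q ∧ w ≤ u ∧ res α w ≤ q ∧
    q ≤ res α w

def S_small : Prop := ∀ κ : Cardinal.{u}, κ.IsInaccessible → ∀ l : Cardinal.{u}, ℵ₁ < l → l < κ →
  ∀ p : Col κ, ¬ ForcesRegular l.ord.ToType p

/-! ### The ultrafilter -/

def S_uf : Prop := ∀ κ : Cardinal.{u}, Supercompact κ → ∀ (L : Type u),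
  ∃ U : Ultrafilter (Set (Col κ ⊕ L)),
    (∀ᶠ x : Set (Col κ ⊕ L) in (U : Filter (Set (Col κ ⊕ L))), #x < κ) ∧
    (∀ s : ℕ → Set (Col κ ⊕ L) → Prop,
      (∀ n, ∀ᶠ x : Set (Col κ ⊕ L) in (U : Filter (Set (Col κ ⊕ L))), s n x) →
      ∀ᶠ x : Set (Col κ ⊕ L) in (U : Filter (Set (Col κ ⊕ L))), ∀ n, s n x) ∧
    (∀ a, ∀ᶠ x : Set (Col κ ⊕ L) in (U : Filter (Set (Col κ ⊕ L))), a ∈ x) ∧
    (∀ c : Set (Col κ ⊕ L) → Col κ × List L × Option L,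
      (∀ᶠ x : Set (Col κ ⊕ L) in (U : Filter (Set (Col κ ⊕ L))), Sum.inl (c x).1 ∈ x ∧
        (∀ a ∈ (c x).2.1, Sum.inr a ∈ x) ∧ ∀ a, (c x).2.2 = some a → Sum.inr a ∈ x) →
      ∃ a, ∀ᶠ x : Set (Col κ ⊕ L) in (U : Filter (Set (Col κ ⊕ L))), c x = a) ∧
    ∀ᶠ x : Set (Col κ ⊕ L) in (U : Filter (Set (Col κ ⊕ L))),
      ∃ α : κ.ord.ToType, ∀ p : Col κ, Sum.inl p ∈ x ↔ Bel α p

/-! ### Regularity and stationarity -/

def S_bdd : Prop := ∀ (P : Type u) [Preorder P] (l : Cardinal.{u}) (p : P), ℵ₀ ≤ l →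
  ForcesRegular l.ord.ToType p → ∀ Y : Set l.ord.ToType, #Y < l → ∃ b, ∀ y ∈ Y, y < b

/-- A stationary set contains a point closed under the name `K` of a function on finite
sequences. -/
def S_clo : Prop := ∀ (P : Type u) [Preorder P] (l : Cardinal.{u}) (p : P), ℵ₁ < l →
  ForcesRegular l.ord.ToType p → ∀ (S : P → l.ord.ToType → Prop), ForcesStationary S p →
  ∀ K : P → List l.ord.ToType → Option l.ord.ToType → Prop,
    (∀ q r t v, r ≤ q → K q t v → K r t v) →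
    (∀ q ≤ p, ∀ t, t ≠ [] → ∃ r ≤ q, ∃ v, K r t v) →
    (∀ q ≤ p, ∀ t v v', K q t v → K q t v' → v = v') →
    ∃ r ≤ p, ∃ δ, In S r δ ∧ ∀ t, t ≠ [] → (∀ a ∈ t, a < δ) → ∀ q ≤ r, ∀ a,
      K q t (some a) → a < δ

/-- A forced set of order type `ω` is covered by a countable set. -/
def S_cover : Prop := ∀ (P : Type u) [Preorder P], Sig P → ∀ (L : Type u) [LinearOrder L]
  [WellFoundedLT L] (A : P → L × L → Prop) (a : L) (p : P),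
  (∀ r ≤ p, ∀ c, In A r (a, c) → c < a) →
  (∀ t : Finset L, ∀ r ≤ p, ∃ s ≤ r, ∃ c, c ∉ t ∧ In A s (a, c)) →
  (∀ r ≤ p, ∀ c, In A r (a, c) → ∃ s ≤ r, ∃ t : Finset L,
    ∀ s' ≤ s, ∀ d < c, In A s' (a, d) → d ∈ t) →
  ∃ r ≤ p, ∃ s : Set L, s.Countable ∧ s.Nonempty ∧ (∀ c ∈ s, c < a) ∧
    ∀ r' ≤ r, ∀ c, In A r' (a, c) → c ∈ s

/-- Closing off a countable set. -/
def S_close : Prop := ∀ (P : Type u) [Preorder P], Sig P → ∀ (L : Type u) [LinearOrder L]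
  (K : P → List L → Option L → Prop) (p : P) (δ : L) (s : Set L),
  (∀ q r t v, r ≤ q → K q t v → K r t v) →
  (∀ q ≤ p, ∀ t, t ≠ [] → ∃ r ≤ q, ∃ v, K r t v) →
  (∀ t, t ≠ [] → (∀ a ∈ t, a < δ) → ∀ q ≤ p, ∀ a, K q t (some a) → a < δ) →
  s.Countable → (∀ c ∈ s, c < δ) →
  ∃ r ≤ p, ∃ y : Set L, s ⊆ y ∧ y.Countable ∧ (∀ c ∈ y, c < δ) ∧
    ∀ t, t ≠ [] → (∀ a ∈ t, a ∈ y) → ∃ v, K r t v ∧ ∀ a, v = some a → a ∈ y

/-! ### The tree of antichains -/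

def S_treeZ : Prop := ∀ (κ : Cardinal.{u}) (L : Type u) (α : κ.ord.ToType) (u₀ : Col κ)
  (Dec : Col κ → L → Option L → Prop), (∀ u ≤ u₀, ∀ c, ∃ w ≤ u, ∃ v, Dec w c v) →
  ∃ Z : List L → Set (Col κ × Option L), Z [] = {(u₀, none)} ∧
    (∀ t c w v, (w, v) ∈ Z (c :: t) → Dec w c v ∧ ∃ u v', (u, v') ∈ Z t ∧ w ≤ u) ∧
    (∀ t w v w' v' q, (w, v) ∈ Z t → (w', v') ∈ Z t → Bel α q → q ≤ res α w → q ≤ res α w' →
      w = w' ∧ v = v') ∧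
    ∀ t q, Bel α q → q ≤ res α u₀ → ∃ w v r, (w, v) ∈ Z t ∧ Bel α r ∧ r ≤ q ∧ r ≤ res α w

/-! ### The main case -/

def S_large : Prop := ∀ κ : Cardinal.{u}, Supercompact κ → ∀ l : Cardinal.{u}, ℵ₁ < l → κ ≤ l →
  ∀ p : Col κ, ForcesRegular l.ord.ToType p → ¬ ForcesADS l.ord.ToType p

end Pool.Agent.W910.LC
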