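import Pool.Agent.W910.LC.Stmts

set_option autoImplicit false

namespace Pool.Agent.W910.LC.T_L1

open Cardinal Set Pool.Agent.W910.LC

universe u

theorem sigma : S_sigma.{u} := by
  intro κ p hp
  have hmono : ∀ m n, m ≤ n → (p m).carrier ⊆ (p n).carrier := by
    intro m n hmn
    induction n, hmn using Nat.le_induction with
    | base => exact Subset.refl _
    | succ n _ ih => exact ih.trans (hp n)
  refine ⟨⟨⋃ n, (p n).carrier, Set.countable_iUnion fun n => (p n).ctbl, ?_, ?_⟩, rfl⟩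
  · intro t ht
    obtain ⟨n, hn⟩ := Set.mem_iUnion.1 ht
    exact (p n).lt t hn
  · intro t ht t' ht' h1 h2
    obtain ⟨n, hn⟩ := Set.mem_iUnion.1 ht
    obtain ⟨n', hn'⟩ := Set.mem_iUnion.1 ht'
    exact (p (max n n')).fn t (hmono _ _ (le_max_left _ _) hn) t'
      (hmono _ _ (le_max_right _ _) hn') h1 h2

theorem sig (κ : Cardinal.{u}) : Sig (Col κ) := by
  intro p hp
  obtain ⟨q, hq⟩ := sigma κ p hp
  refine ⟨q, fun n => ?_⟩
  change (p n).carrier ⊆ q.carrier
  rw [hq]
  exact Set.subset_iUnion (fun n => (p n).carrier) n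

theorem amal : S_amal.{u} := by
  intro κ α q u hB hqu
  have hqu' : (res α u).carrier ⊆ q.carrier := hqu
  have hmix : ∀ t ∈ q.carrier, ∀ t' ∈ u.carrier, t.1 = t'.1 → t' ∈ q.carrier := by
    intro t ht t' ht' h
    refine hqu' ?_
    have h1 : t.1 < α := hB t ht
    exact ⟨ht', h ▸ h1⟩
  let w : Col κ := ⟨q.carrier ∪ u.carrier, q.ctbl.union u.ctbl, by
      rintro t (ht | ht)
      · exact q.lt t ht
      · exact u.lt t ht, by
      rintro t (ht | ht) t' (ht' | ht') h1 h2
      · exact q.fn t ht t' ht' h1 h2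
      · exact q.fn t ht t' (hmix t ht t' ht' h1) h1 h2
      · exact q.fn t (hmix t' ht' t ht h1.symm) t' ht' h1 h2
      · exact u.fn t ht t' ht' h1 h2⟩
  refine ⟨w, rfl, ?_, ?_, ?_, ?_⟩
  · exact Set.subset_union_left
  · exact Set.subset_union_right
  · intro t ht
    exact ⟨Or.inl ht, hB t ht⟩
  · rintro t ⟨ht | ht, h⟩
    · exact ht
    · exact hqu' ⟨ht, h⟩

theorem in_mono {P : Type u} [Preorder P] {X : Type u} (N : P → X → Prop) (p q : P) (x : X)
    (h : In N p x) (hqp : q ≤ p) : In N q x :=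
  fun r hr => h r (hr.trans hqp)

end Pool.Agent.W910.LC.T_L1
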